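import Pool.Agent.Helper25_CON.Stmts

/-!
Squad CON, module D_RGM: the lattice orthogonal to e and f is generated by its roots
-/

noncomputable section

namespace Pool.Agent.CON.H93

open Pool.Agent.H25Cong Pool.Agent.CON

variable {n : ℕ}

lemma bG_cast {L : Submodule ℤ (V n)} (hL : EvenLat L) {e f : V n} (x y : Mef L e f) :
    ((bG (Mef L e f) x y : ℤ) : ℝ) = B (x : V n) (y : V n) := by
  obtain ⟨k, hk⟩ := hL.int x x.2.1 y y.2.1
  simp only [bG]
  rw [hk, Int.floor_intCast]

theorem rgm : D_RGM := by
  intro n L e f hL he hf hee hff hef hRG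
  have key : ∀ q ∈ AddSubgroup.closure {a : V n | Root L a ∧ B a e = 0},
      ∃ t : Mef L e f, (t : V n) = q + B q f • e ∧
        t ∈ AddSubgroup.closure {t : Mef L e f | t ≠ 0 ∧
          ∀ s, bG (Mef L e f) t t ∣ 2 * bG (Mef L e f) t s} := by
    intro q hq
    induction hq using AddSubgroup.closure_induction with
    | mem a ha =>
      obtain ⟨ha, hae⟩ := ha
      obtain ⟨haL, hpos, hdvd, -⟩ := ha
      obtain ⟨k, hk⟩ := hL.int a haL f hf
      have hmem : a + B a f • e ∈ Mef L e f := by
        refine ⟨?_, ?_, ?_⟩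
        · rw [hk, Int.cast_smul_eq_zsmul ℝ]
          exact L.add_mem haL (L.smul_mem k he)
        · rw [B_add_left, B_smul_left, hae, hee]; ring
        · rw [B_add_left, B_smul_left, hef]; ring
      refine ⟨⟨_, hmem⟩, rfl, AddSubgroup.subset_closure ⟨?_, ?_⟩⟩
      · intro h0
        have h1 : a + B a f • e = 0 := congrArg Subtype.val h0
        have h2 : B (a + B a f • e) (a + B a f • e) = B a a := by
          rw [B_add_left, B_add_right, B_add_right, B_smul_left, B_smul_left, B_smul_right,
            B_smul_right, B_comm e a, hae, hee]; ring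
        rw [h1] at h2
        simp at h2
        linarith
      · intro s
        obtain ⟨j, hj⟩ := hdvd s s.2.1
        refine ⟨j, ?_⟩
        have h2 : B (a + B a f • e) (a + B a f • e) = B a a := by
          rw [B_add_left, B_add_right, B_add_right, B_smul_left, B_smul_left, B_smul_right,
            B_smul_right, B_comm e a, hae, hee]; ring
        have h3 : B (a + B a f • e) (s : V n) = B a s := by
          rw [B_add_left, B_smul_left, B_comm e, s.2.2.1]; ring
        have h4 : ((2 * bG (Mef L e f) ⟨_, hmem⟩ s : ℤ) : ℝ) =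
            ((bG (Mef L e f) ⟨_, hmem⟩ ⟨_, hmem⟩ * j : ℤ) : ℝ) := by
          push_cast
          rw [bG_cast hL, bG_cast hL]
          simp only
          rw [h2, h3, hj]; ring
        exact_mod_cast h4
    | zero => exact ⟨0, by simp, AddSubgroup.zero_mem _⟩
    | add x y _ _ hx hy =>
      obtain ⟨t, ht, ht'⟩ := hx
      obtain ⟨u, hu, hu'⟩ := hy
      refine ⟨t + u, ?_, AddSubgroup.add_mem _ ht' hu'⟩
      rw [AddSubgroup.coe_add, ht, hu, B_add_left, add_smul]; abel
    | neg x _ hx =>
      obtain ⟨t, ht, ht'⟩ := hx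
      refine ⟨-t, ?_, AddSubgroup.neg_mem _ ht'⟩
      rw [AddSubgroup.coe_neg, ht, B_neg_left, neg_smul]; abel
  intro t
  obtain ⟨q, hq, c, hc⟩ := hRG t t.2.1 t.2.2.1
  obtain ⟨u, hu, hu'⟩ := key q hq
  have h1 : B q f = c := by
    have h2 := t.2.2.2
    rw [hc, B_add_left, B_smul_left, hef] at h2
    linarith
  have h3 : t = u := by
    apply Subtype.ext
    rw [hu, h1]; exact hc
  rw [h3]; exact hu'

end Pool.Agent.CON.H93

end
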