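import Pool.Agent.Helper25_CON.Stmts

/-!
Squad CON, module D_RGN: the 2-neighbour is generated by its roots
-/

noncomputable section

namespace Pool.Agent.CON.H93

open Pool.Agent.H25Cong Pool.Agent.CON

variable {n : ℕ}

lemma bG_cast2 {L : Submodule ℤ (V n)} (hL : EvenLat L) {e f : V n} (x y : Mef L e f) :
    ((bG (Mef L e f) x y : ℤ) : ℝ) = B (x : V n) (y : V n) := by
  obtain ⟨k, hk⟩ := hL.int x x.2.1 y y.2.1
  simp only [bG]
  rw [hk, Int.floor_intCast]

/-- the projection to the neighbour -/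
def psi (e f x z : V n) : V n := (2 : ℝ) • (z + B z f • e + B z e • f) + B z e • x

lemma psi_add (e f x z w : V n) : psi e f x (z + w) = psi e f x z + psi e f x w := by
  simp only [psi, B_add_left, add_smul, smul_add]; abel

lemma psi_neg (e f x z : V n) : psi e f x (-z) = - psi e f x z := by
  simp only [psi, B_neg_left, neg_smul, smul_add, smul_neg]; abel

lemma psi_zero (e f x : V n) : psi e f x 0 = 0 := by
  simp [psi]

lemma psi_smul (e f x z : V n) (c : ℝ) : psi e f x (c • z) = c • psi e f x z := by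
  simp only [psi, B_smul_left, smul_add, smul_smul]
  rw [mul_comm c 2, mul_left_comm c 2 (B z f), mul_left_comm c 2 (B z e)]

/-- products -/
lemma psi_mul {e f x : V n} (hee : B e e = 0) (hff : B f f = 0) (hef : B e f = -1)
    (hxe : B x e = 0) (hxf : B x f = 0) {al : ℝ} (hx : B x x = 4 * al) {z w : V n}
    (hz : B z x = - (al * B z e) - 2 * B z f) (hw : B w x = - (al * B w e) - 2 * B w f) :
    B (psi e f x z) (psi e f x w) = 4 * B z w := by
  have hfe : B f e = -1 := by rw [B_comm]; exact hef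
  have hex : B e x = 0 := by rw [B_comm]; exact hxe
  have hfx : B f x = 0 := by rw [B_comm]; exact hxf
  have hxw : B x w = B w x := B_comm _ _
  have hew : B e w = B w e := B_comm _ _
  have hfw : B f w = B w f := B_comm _ _
  simp only [psi, B_add_left, B_add_right, B_smul_left, B_smul_right, hee, hff, hef, hfe, hxe, hxf,
    hex, hfx, hxw, hew, hfw, hx, hz, hw]
  ring

theorem rgn : D_RGN := by
  intro n L e f hL he hf hee hff hef hRG x hx
  obtain ⟨k, hk⟩ := hx
  have hxL := x.2.1
  have hxe := x.2.2.1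
  have hxf := x.2.2.2
  have hfe : B f e = -1 := by rw [B_comm]; exact hef
  have hex : B e x = 0 := by rw [B_comm]; exact hxe
  have hfx : B f x = 0 := by rw [B_comm]; exact hxf
  have hxx : B (x : V n) x = 4 * (2 * (k : ℝ) + 1) := by
    rw [← bG_cast2 hL, hk]; push_cast; ring
  -- the isotropic vector
  obtain ⟨e', he'⟩ : ∃ e' : V n, e' = (2 * (k : ℝ) + 1) • e + (2 : ℝ) • f + (x : V n) := ⟨_, rfl⟩
  obtain ⟨f1, hf1⟩ : ∃ f1 : V n, f1 = f - (k : ℝ) • e := ⟨_, rfl⟩
  have he'L : e' ∈ L := by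
    have h1 : e' = (2 * k + 1 : ℤ) • e + (2 : ℤ) • f + (x : V n) := by
      rw [he', ← Int.cast_smul_eq_zsmul ℝ, ← Int.cast_smul_eq_zsmul ℝ]; push_cast; rfl
    rw [h1]
    exact L.add_mem (L.add_mem (L.smul_mem _ he) (L.smul_mem _ hf)) hxL
  have hf1L : f1 ∈ L := by
    have h1 : f1 = f - (k : ℤ) • e := by
      rw [hf1, Int.cast_smul_eq_zsmul ℝ]
    rw [h1]
    exact L.sub_mem hf (L.smul_mem _ he)
  have hf'L : f1 + (k : ℝ) • e' ∈ L := by
    rw [Int.cast_smul_eq_zsmul ℝ]
    exact L.add_mem hf1L (L.smul_mem _ he'L)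
  have hR := hRG e' he'L (f1 + (k : ℝ) • e') hf'L
    (by
      rw [he']
      simp only [B_add_left, B_add_right, B_smul_left, B_smul_right, hee, hff, hef, hfe, hxe, hxf,
        hex, hfx, hxx]
      ring)
    (by
      rw [hf1, he']
      simp only [B_add_left, B_add_right, B_sub_left, B_sub_right, B_smul_left, B_smul_right, hee,
        hff, hef, hfe, hxe, hxf, hex, hfx, hxx]
      ring)
    (by
      rw [hf1, he']
      simp only [B_add_left, B_add_right, B_sub_left, B_sub_right, B_smul_left, B_smul_right, hee,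
        hff, hef, hfe, hxe, hxf, hex, hfx, hxx]
      ring)
  -- orthogonality to e'
  have hperp : ∀ z : V n, B z e' = (2 * (k : ℝ) + 1) * B z e + 2 * B z f + B z x := by
    intro z
    rw [he']
    simp only [B_add_right, B_smul_right]
  -- lift
  have lift : ∀ t : Mef L e f, InN (bG (Mef L e f)) x t →
      ∃ z ∈ L, B z e' = 0 ∧ psi e f (x : V n) z = (t : V n) := by
    rintro t ⟨y, c, ht, ⟨d, hd⟩⟩
    have hye := y.2.2.1
    have hyf := y.2.2.2
    have hyx : B (y : V n) x = 2 * (d : ℝ) + c := by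
      rw [← bG_cast2 hL]
      have : bG (Mef L e f) y x = 2 * d + c := by linarith
      rw [this]; push_cast; ring
    refine ⟨(y : V n) + ((d - k * c : ℤ) : ℝ) • e + (c : ℝ) • f, ?_, ?_, ?_⟩
    · rw [Int.cast_smul_eq_zsmul ℝ, Int.cast_smul_eq_zsmul ℝ]
      exact L.add_mem (L.add_mem y.2.1 (L.smul_mem _ he)) (L.smul_mem _ hf)
    · rw [hperp]
      simp only [B_add_left, B_smul_left, hee, hff, hef, hfe, hex, hfx, hye, hyf, hyx]
      push_cast; ring
    · have ht' : (t : V n) = (2 : ℝ) • (y : V n) - (c : ℝ) • (x : V n) := by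
        rw [ht]
        rw [AddSubgroup.coe_sub, AddSubgroup.coe_zsmul, AddSubgroup.coe_zsmul,
          ← Int.cast_smul_eq_zsmul ℝ, ← Int.cast_smul_eq_zsmul ℝ]
        norm_num
      rw [ht']
      simp only [psi, B_add_left, B_smul_left, hee, hff, hef, hfe, hye, hyf]
      module
  -- descent
  have desc : ∀ z ∈ L, B z e' = 0 → ∃ t : Mef L e f, (t : V n) = psi e f (x : V n) z ∧
      InN (bG (Mef L e f)) x t := by
    intro z hz hze'
    obtain ⟨a, ha⟩ := hL.int z hz e he
    obtain ⟨b, hb⟩ := hL.int z hz f hf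
    have hymem : z + B z f • e + B z e • f ∈ Mef L e f := by
      refine ⟨?_, ?_, ?_⟩
      · rw [ha, hb, Int.cast_smul_eq_zsmul ℝ, Int.cast_smul_eq_zsmul ℝ]
        exact L.add_mem (L.add_mem hz (L.smul_mem _ he)) (L.smul_mem _ hf)
      · simp only [B_add_left, B_smul_left, hee, hfe]; ring
      · simp only [B_add_left, B_smul_left, hff, hef]; ring
    refine ⟨(2 : ℤ) • (⟨_, hymem⟩ : Mef L e f) - (-a) • x, ?_, ⟨_, -a, rfl, ?_⟩⟩
    · rw [AddSubgroup.coe_sub, AddSubgroup.coe_zsmul, AddSubgroup.coe_zsmul,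
          ← Int.cast_smul_eq_zsmul ℝ, ← Int.cast_smul_eq_zsmul ℝ]
      have h5 : psi e f (x : V n) z = (2 : ℝ) • (z + B z f • e + B z e • f) + (a : ℝ) • (x : V n) := by
        rw [psi, ← ha]
      rw [h5]
      push_cast
      rw [neg_smul, sub_neg_eq_add]
    · refine ⟨- b - k * a, ?_⟩
      have h1 : ((bG (Mef L e f) ⟨_, hymem⟩ x : ℤ) : ℝ) =
          ((- a + 2 * (- b - k * a) : ℤ) : ℝ) := by
        rw [bG_cast2 hL]
        simp only [B_add_left, B_smul_left, hex, hfx]
        rw [hperp] at hze'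
        rw [ha, hb] at hze'
        push_cast
        linarith
      have h2 : bG (Mef L e f) ⟨_, hymem⟩ x = - a + 2 * (- b - k * a) := by exact_mod_cast h1
      rw [h2]; ring
  -- generation
  have key : ∀ q ∈ AddSubgroup.closure {a : V n | Root L a ∧ B a e' = 0},
      ∃ t : Mef L e f, (t : V n) = psi e f (x : V n) q ∧
        t ∈ AddSubgroup.closure {t : Mef L e f | InN (bG (Mef L e f)) x t ∧ t ≠ 0 ∧
          ∀ s, InN (bG (Mef L e f)) x s → bG (Mef L e f) t t ∣ 2 * bG (Mef L e f) t s} := by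
    intro q hq
    induction hq using AddSubgroup.closure_induction with
    | mem a ha =>
      obtain ⟨⟨haL, hpos, hdvd, -⟩, hae⟩ := ha
      obtain ⟨t, ht, htN⟩ := desc a haL hae
      have hprod : ∀ z : V n, B z e' = 0 → B (t : V n) (psi e f (x : V n) z) = 4 * B a z := by
        intro z hz
        rw [ht]
        rw [hperp] at hz hae
        exact psi_mul hee hff hef hxe hxf hxx (by linarith) (by linarith)
      have hnorm : B (t : V n) (t : V n) = 4 * B a a := by
        have := hprod a hae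
        rwa [← ht] at this
      refine ⟨t, ht, AddSubgroup.subset_closure ⟨htN, ?_, ?_⟩⟩
      · intro h0
        rw [h0] at hnorm
        simp at hnorm
        linarith
      · intro s hs
        obtain ⟨z, hzL, hze, hzs⟩ := lift s hs
        obtain ⟨j, hj⟩ := hdvd z hzL
        refine ⟨j, ?_⟩
        have h4 : ((2 * bG (Mef L e f) t s : ℤ) : ℝ) =
            ((bG (Mef L e f) t t * j : ℤ) : ℝ) := by
          push_cast
          rw [bG_cast2 hL, bG_cast2 hL, hnorm, ← hzs, hprod z hze]
          linarith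
        exact_mod_cast h4
    | zero => exact ⟨0, by rw [psi_zero]; rfl, AddSubgroup.zero_mem _⟩
    | add y z _ _ hy hz =>
      obtain ⟨t, ht, ht'⟩ := hy
      obtain ⟨u, hu, hu'⟩ := hz
      refine ⟨t + u, ?_, AddSubgroup.add_mem _ ht' hu'⟩
      rw [AddSubgroup.coe_add, ht, hu, psi_add]
    | neg y _ hy =>
      obtain ⟨t, ht, ht'⟩ := hy
      refine ⟨-t, ?_, AddSubgroup.neg_mem _ ht'⟩
      rw [AddSubgroup.coe_neg, ht, psi_neg]
  have hpe' : psi e f (x : V n) e' = 0 := by
    have h1 : B e' f = - (2 * (k : ℝ) + 1) := by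
      rw [he']; simp only [B_add_left, B_smul_left, hff, hef, hxf]; ring
    have h2 : B e' e = -2 := by
      rw [he']; simp only [B_add_left, B_smul_left, hee, hfe, hxe]; ring
    rw [psi, h1, h2, he']
    module
  intro t ht
  obtain ⟨z, hzL, hze, hzt⟩ := lift t ht
  obtain ⟨q, hq, c, hc⟩ := hR z hzL hze
  obtain ⟨u, hu, hu'⟩ := key q hq
  have h3 : t = u := by
    apply Subtype.ext
    rw [hu, ← hzt, hc, psi_add, psi_smul, hpe', smul_zero, add_zero]
  rw [h3]; exact hu'

end Pool.Agent.CON.H93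

end
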